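import Mathlib
import Pool.Agent.Helper88.GF.Defs
import Pool.Agent.Helper91.GH.Last

set_option autoImplicit false

namespace Pool.Agent.Results.MP_3cd25e_lc.FamilyEquivalenceSigmaTwo

open Pool.Agent.Helper88.GF

/-- Family equivalence of context-free grammars is `Σ₂`-hard: there are a fixed grammar
`G₀ = (S, P₀)` and a fixed extension `(S, P₁)` of it such that every `Σ₂` set of natural numbers
is reducible, by a computable function `n ↦ β n`, to the family equivalence of the grammar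
`(S, P₁)` with one more production `B → β n` and the fixed grammar `G₀`.  Hence no recursively
enumerable set of pairs of grammars is family equivalence, or its complement, on these pairs. -/
theorem result : ∃ (S B : ℕ) (P₀ P₁ : List (ℕ × List (ℕ ⊕ ℕ))),
    LambdaFree (S, P₀) ∧ LambdaFree (S, P₁) ∧ P₀ ⊆ P₁ ∧
    (∀ R : ℕ → ℕ → ℕ → Prop, ComputablePred (fun t : ℕ × ℕ × ℕ => R t.1 t.2.1 t.2.2) →
      ∃ β : ℕ → List (ℕ ⊕ ℕ), Computable β ∧ (∀ n, β n ≠ []) ∧
        ∀ n, (∃ x, ∀ y, R n x y) ↔ Fam (S, (B, β n) :: P₁) = Fam (S, P₀)) ∧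
    ∀ p : Gram × Gram → Prop, REPred p →
      (∃ β : List (ℕ ⊕ ℕ), β ≠ [] ∧
        ¬ (p ((S, (B, β) :: P₁), (S, P₀)) ↔ Fam (S, (B, β) :: P₁) = Fam (S, P₀))) ∧
      (∃ β : List (ℕ ⊕ ℕ), β ≠ [] ∧
        ¬ (p ((S, (B, β) :: P₁), (S, P₀)) ↔ Fam (S, (B, β) :: P₁) ≠ Fam (S, P₀))) :=
  Pool.Agent.Helper91.GH.main

end Pool.Agent.Results.MP_3cd25e_lc.FamilyEquivalenceSigmaTwo
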